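import Pool.Agent.H12.KG.Targets

/-! Row WAL of project KEW, block G: weak approximation at the relevant minimal primes. -/

namespace Pool.Agent.H51.KG

open AlgebraicGeometry CategoryTheory Pool.Agent.H12.KP Pool.Agent.H12.KG

universe u

theorem eq_of_le_min {D : Type u} [CommRing D] [IsDomain D] [IsNoetherianRing D] (x : D)
    (z P : Ideal D) (hz : z ∈ (Ideal.span {x}).minimalPrimes) (hP : P.IsPrime) (hP0 : P ≠ ⊥)
    (hle : P ≤ z) : P = z := by
  have hzp : z.IsPrime := hz.1.1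
  have h1 : z.height ≤ 1 :=
    Ideal.height_le_one_of_isPrincipal_of_mem_minimalPrimes (Ideal.span {x}) z hz
  by_contra hne
  have hlt : P < z := lt_of_le_of_ne hle hne
  have h2 : P.height + 1 ≤ z.height := Ideal.height_add_one_le_of_lt_of_isPrime hlt
  have h3 : P.height ≠ 0 := fun h => hP0 (Ideal.height_eq_zero_iff_eq_bot.1 h)
  have h4 : (1 : ℕ∞) ≤ P.height := Order.one_le_iff_ne_zero.2 h3
  have h5 : (1 : ℕ∞) + 1 ≤ 1 := (add_le_add_left h4 1).trans (h2.trans h1)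
  exact absurd h5 (by decide)

open scoped Classical in
theorem pf_WAL (hW : S_WAG.{u}) : S_WAL.{u} := by
  intro A D _ _ _ _ _ 𝒟 _ L _ _ _ π hπ n hn H hH
  have hdat : ∀ y : Ideal D, ∃ d : ℕ, ∃ a ∈ 𝒟 d, ∃ b ∈ 𝒟 d, b ∉ (⊥ : Ideal D) ∧
      H y * algebraMap D L b = algebraMap D L a := fun y => (hH y).1
  choose m a ha c hc hc0 hac using hdat
  have hinj : Function.Injective (algebraMap D L) := IsFractionRing.injective D L
  have hcne : ∀ y, c y ≠ 0 := fun y h => hc0 y (by rw [h]; exact Submodule.zero_mem _)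
  have hcL : ∀ y, algebraMap D L (c y) ≠ 0 := fun y h =>
    hcne y (hinj (by rw [h, map_zero]))
  have haL : ∀ y, algebraMap D L (a y) ≠ 0 := fun y h => by
    have h1 := hac y
    rw [h] at h1
    exact (mul_ne_zero (hH y).2 (hcL y)) h1
  have hane : ∀ y, a y ≠ 0 := fun y h => haL y (by rw [h, map_zero])
  have hfin : (Ideal.span {algebraMap A D π}).minimalPrimes.Finite :=
    Ideal.finite_minimalPrimes_of_isNoetherianRing D _
  obtain ⟨Z, hZ⟩ : ∃ Z : Finset (Ideal D), ∀ z, z ∈ Z ↔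
      z ∈ (Ideal.span {algebraMap A D π}).minimalPrimes ∧ Rel 𝒟 z :=
    ⟨hfin.toFinset.filter (fun z => Rel 𝒟 z), fun z => by simp⟩
  obtain ⟨k, f, g, hf, hg, hf0, hg0, hfg⟩ := hW A D 𝒟 L π hπ n hn Z m a c
    (fun z hz => ⟨((hZ z).1 hz).2, ((hZ z).1 hz).1.1.2 (Ideal.mem_span_singleton_self _)⟩)
    (fun z _ => ⟨ha z, hc z, hane z, hcne z⟩)
    (by
      intro z hz z' hz' hzz P hP hmem hle hle'
      have hP0 : P ≠ ⊥ := by
        intro h
        rw [h, Ideal.mem_bot] at hmem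
        exact mul_ne_zero hπ (mul_ne_zero (hane z) (hcne z)) hmem
      have h1 : P = z := eq_of_le_min _ z P ((hZ z).1 hz).1 hP hP0 hle
      rw [h1] at hle'
      have h2 : z' ≤ z := ((hZ z').1 hz').1.2 ((hZ z).1 hz).1.1 hle'
      exact hzz (le_antisymm hle' h2))
  have hfL : algebraMap D L f ≠ 0 := fun h => hf0 (hinj (by rw [h, map_zero]))
  have hgL : algebraMap D L g ≠ 0 := fun h => hg0 (hinj (by rw [h, map_zero]))
  refine ⟨algebraMap D L f / algebraMap D L g, ⟨k, f, hf, g, hg, fun h => hg0 ?_, ?_⟩,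
    div_ne_zero hfL hgL, ?_⟩
  · simpa using h
  · field_simp
  · intro y hy hr
    obtain ⟨s, hs, h1⟩ := hfg y ((hZ y).2 ⟨hy, hr⟩)
    refine ⟨s, hs, ?_⟩
    rw [← h1, map_mul, map_mul]
    have h2 := hac y
    have h3 := haL y
    have h4 := hcL y
    rw [← h2] at h3 ⊢
    have h5 := (hH y).2
    field_simp

end Pool.Agent.H51.KG
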