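import Pool.Agent.H77.KG.Targets

/-!
# Row UNI (board kgr_modules)
-/

set_option autoImplicit false

open Set Pool.Agent.H77.BC Pool.Agent.H77.BD Pool.Agent.H77.KG

namespace Pool.Agent.H51.KG.UNI

variable {M : Type} {U : RU M} {G V : Type} [Group G] [AddCommGroup V] [DistribMulAction G V]
  [Cod M G] [Cod M V] [DG U G] [DAb U V] [DA U G V]

/-- the fixed points of the stabilizer of the first `i` points -/
def C {k : ℕ} (G : Type) {V : Type} [Group G] [AddCommGroup V] [DistribMulAction G V]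
    (s : Fin k → V) (i : ℕ) : AddSubgroup V where
  carrier := {w | ∀ g : G, (∀ j : Fin k, j.1 < i → g • s j = s j) → g • w = w}
  zero_mem' := fun g _ => smul_zero g
  add_mem' := fun {a b} ha hb g hg => by rw [smul_add, ha g hg, hb g hg]
  neg_mem' := fun {a} ha g hg => by rw [smul_neg, ha g hg]

theorem mem_C {k : ℕ} {s : Fin k → V} {i : ℕ} {w : V} :
    w ∈ C G s i ↔ ∀ g : G, (∀ j : Fin k, j.1 < i → g • s j = s j) → g • w = w := Iff.rfl

theorem D_C {k : ℕ} (s : Fin k → V) (i : ℕ) : U.D (C G s i : Set V) := by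
  have h : U.D {w : V | ∀ g : G, (∀ j : Fin k, j.1 < i → g • s j = s j) → g • w = w} := by
    refine D_forall (p := fun (w : V) (g : G) => (∀ j : Fin k, j.1 < i → g • s j = s j) →
      g • w = w) (D_imp ?_ (D_eqf (DFn_act DFn_snd DFn_fst) DFn_fst))
    refine D_forall_fin (p := fun (j : Fin k) (z : V × G) => j.1 < i → z.2 • s j = s j)
      fun j => ?_
    exact D_imp D_const (D_eqf (DFn_act DFn_snd (DFn_const _)) (DFn_const _))
  exact h

theorem inv_C {k : ℕ} {s : Fin k → V} {i : ℕ} {T : Subgroup G}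
    (hcen : ∀ t ∈ T, ∀ g : G, t * g = g * t) {t : G} (ht : t ∈ T) {w : V}
    (hw : w ∈ C G s i) : t • w ∈ C G s i := by
  intro g hg
  rw [smul_smul, ← hcen t ht g, mul_smul, hw g hg]

theorem mono_C {k : ℕ} (s : Fin k → V) (i : ℕ) : C G s i ≤ C G s (i + 1) := by
  intro w hw g hg
  exact hw g fun j hj => hg j (Nat.lt_succ_of_lt hj)

omit [DAb U V] in
theorem D_sub {A : AddSubgroup V} (hA : U.D (A : Set V)) {α : Type} [Cod M α] [Ful U α]
    {f : α → V} (hf : DFn U f) : U.D {a | f a ∈ A} := DFn_preim hf hA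

/-- if `C i` has finite index in `C (i + 1)` -/
theorem step1 (T : Subgroup G) (hT : Conn U T) (A B : AddSubgroup V) (hA : U.D (A : Set V))
    (hAi : ∀ t ∈ T, ∀ w ∈ A, t • w ∈ A) (hBi : ∀ t ∈ T, ∀ w ∈ B, t • w ∈ B)
    (hAB : A.relIndex B ≠ 0) (x : V) (hx : x ∈ B) : ∀ t ∈ T, t • x - x ∈ A := by
  classical
  let L : Subgroup G :=
    { carrier := {t | t ∈ T ∧ t • x - x ∈ A}
      one_mem' := ⟨T.one_mem, by rw [one_smul, sub_self]; exact A.zero_mem⟩
      mul_mem' := by
        rintro a b ⟨ha, ha'⟩ ⟨hb, hb'⟩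
        refine ⟨T.mul_mem ha hb, ?_⟩
        have h : (a * b) • x - x = a • (b • x - x) + (a • x - x) := by
          rw [smul_sub, mul_smul]; abel
        rw [h]
        exact A.add_mem (hAi a ha _ hb') ha'
      inv_mem' := by
        rintro a ⟨ha, ha'⟩
        refine ⟨T.inv_mem ha, ?_⟩
        have h : a⁻¹ • x - x = - (a⁻¹ • (a • x - x)) := by
          rw [smul_sub, inv_smul_smul]; abel
        rw [h]
        exact A.neg_mem (hAi _ (T.inv_mem ha) _ ha') }
  have hLD : U.D (L : Set G) := by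
    have h : U.D {t : G | t ∈ T ∧ t • x - x ∈ A} :=
      D_and hT.1 (D_sub hA (DFn_asub (DFn_act DFn_id (DFn_const _)) (DFn_const _)))
    exact h
  have hLT : L ≤ T := fun t ht => ht.1
  have hidx : L.relIndex T ≠ 0 := by
    have hfin : Finite (B ⧸ (A.addSubgroupOf B)) := by
      have h1 : (A.addSubgroupOf B).index ≠ 0 := hAB
      have h2 : (A.addSubgroupOf B).FiniteIndex := ⟨h1⟩
      exact AddSubgroup.finite_quotient_of_finiteIndex
    let ψ : T → B ⧸ (A.addSubgroupOf B) := fun t =>
      QuotientAddGroup.mk (⟨t.1 • x - x, B.sub_mem (hBi t.1 t.2 x hx) hx⟩ : B)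
    have hψ : ∀ a b : T, ψ a = ψ b → a⁻¹ * b ∈ L.subgroupOf T := by
      intro a b hab
      have h1 := QuotientAddGroup.eq.1 hab
      rw [AddSubgroup.mem_addSubgroupOf] at h1
      have h2 : b.1 • x - a.1 • x ∈ A := by
        have h3 : b.1 • x - a.1 • x = - (a.1 • x - x) + (b.1 • x - x) := by abel
        rw [h3]
        exact h1
      rw [Subgroup.mem_subgroupOf]
      refine ⟨T.mul_mem (T.inv_mem a.2) b.2, ?_⟩
      have h4 : ((a⁻¹ * b : T) : G) • x - x = a.1⁻¹ • (b.1 • x - a.1 • x) := by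
        rw [smul_sub, inv_smul_smul, ← mul_smul]; rfl
      rw [h4]
      exact hAi _ (T.inv_mem a.2) _ h2
    have hfin2 : Finite (T ⧸ L.subgroupOf T) := by
      let ρ : T ⧸ L.subgroupOf T → B ⧸ (A.addSubgroupOf B) := fun q => ψ q.out
      refine Finite.of_injective ρ ?_
      intro p q hpq
      have h1 := hψ _ _ hpq
      have h2 := QuotientGroup.eq.2 h1
      rw [QuotientGroup.out_eq', QuotientGroup.out_eq'] at h2
      exact h2
    have h5 : (L.subgroupOf T).index ≠ 0 := Subgroup.index_ne_zero_of_finite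
    exact h5
  have hLeq : L = T := hT.2 L hLT hLD
    ((Pool.Agent.H77.BCP.a_GRA U T L hT.1 hLD hLT).1 hidx)
  intro t ht
  rw [← hLeq] at ht
  exact ht.2

theorem pf_UNI (hGTO : T_GTO) (hMNC : T_MNC) (hADT : T_ADT) (hAHM : T_AHM) : T_UNI := by
  intro M U G V _ _ _ _ _ _ _ _ hMn T hT hcen hmv hGT
  have hV : CnS U (⊤ : AddSubgroup V) := hMNC U ⊤ ⊤ hMn
  have hR := Pool.Agent.H77.BCP.a_RKA U
  have hinf : (univ : Set V).Infinite := hMn.2.2.1
  have hful : U.D (univ : Set V) := Ful.full
  have hv1 : U.R (univ : Set V) ≠ 0 := by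
    intro h
    exact hinf ((hR.fin hful ⟨0, mem_univ _⟩).1 h)
  obtain ⟨s, hs⟩ := hGTO U (U.R (univ : Set V) + 1) hGT
  have hA := hADT U V
  have key : ∀ i : Fin (U.R (univ : Set V) + 1),
      U.R (C G s i.1 : Set V) + 1 ≤ U.R (C G s (i.1 + 1) : Set V) := by
    intro i
    by_contra hcon
    have hle : U.R (C G s (i.1 + 1) : Set V) ≤ U.R (C G s i.1 : Set V) := by omega
    have hidx := (hA.idx _ _ (D_C (U := U) s i.1) (D_C (U := U) s (i.1 + 1))
      (mono_C s i.1)).2 hle
    have hxm : s i ∈ C G s (i.1 + 1) := fun g hg => hg i (Nat.lt_succ_self _)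
    have h1 := step1 T hT (C G s i.1) (C G s (i.1 + 1)) (D_C (U := U) s i.1)
      (fun t ht w hw => inv_C hcen ht hw) (fun t ht w hw => inv_C hcen ht hw) hidx (s i) hxm
    -- the orbit
    have hOD : U.D {y : V | ∃ g : G, (∀ j, j < i → g • s j = s j) ∧ y = g • s i} := by
      refine D_exists (p := fun (y : V) (g : G) => (∀ j, j < i → g • s j = s j) ∧
        y = g • s i) (D_and ?_ (D_eqf DFn_fst (DFn_act DFn_snd (DFn_const _))))
      refine D_forall_fin (p := fun (j : Fin (U.R (univ : Set V) + 1)) (z : V × G) =>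
        j < i → z.2 • s j = s j) fun j => ?_
      exact D_imp D_const (D_eqf (DFn_act DFn_snd (DFn_const _)) (DFn_const _))
    have hOne : ({y : V | ∃ g : G, (∀ j, j < i → g • s j = s j) ∧ y = g • s i}).Nonempty :=
      ⟨s i, 1, fun j _ => one_smul _ _, (one_smul _ _).symm⟩
    let D : AddSubgroup V :=
      { carrier := {w | ∀ t : G, t ∈ T → t • w - w ∈ C G s i.1}
        zero_mem' := fun t _ => by rw [smul_zero, sub_self]; exact AddSubgroup.zero_mem _
        add_mem' := fun {a b} ha hb t ht => by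
          have h : t • (a + b) - (a + b) = (t • a - a) + (t • b - b) := by
            rw [smul_add]; abel
          rw [h]
          exact AddSubgroup.add_mem _ (ha t ht) (hb t ht)
        neg_mem' := fun {a} ha t ht => by
          have h : t • (-a) - (-a) = - (t • a - a) := by
            rw [smul_neg]; abel
          rw [h]
          exact AddSubgroup.neg_mem _ (ha t ht) }
    have hDD : U.D (D : Set V) := by
      have h : U.D {w : V | ∀ t : G, t ∈ T → t • w - w ∈ C G s i.1} := by
        refine D_forall (p := fun (w : V) (t : G) => t ∈ T → t • w - w ∈ C G s i.1)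
          (D_imp (DFn_preim DFn_snd hT.1) ?_)
        exact D_sub (D_C (U := U) s i.1) (DFn_asub (DFn_act DFn_snd DFn_fst) DFn_fst)
      exact h
    have hOs : {y : V | ∃ g : G, (∀ j, j < i → g • s j = s j) ∧ y = g • s i} ⊆ (D : Set V) := by
      rintro y ⟨g, hg, rfl⟩ t ht
      have h2 : t • g • s i - g • s i = g • (t • s i - s i) := by
        rw [smul_sub, smul_smul, smul_smul, hcen t ht g]
      rw [h2, h1 t ht g fun j hj => hg j hj]
      exact h1 t ht
    have hDR : U.R (univ : Set V) ≤ U.R (D : Set V) := by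
      rw [← hs i]
      exact hR.mono hOD hDD hOne hOs
    have hDt : D = ⊤ := hV.2 D le_top hDD hDR
    obtain ⟨t0, ht0, v0, hv0⟩ := hmv
    let φ : V →+ V :=
      { toFun := fun w => t0 • w - w
        map_zero' := by rw [smul_zero, sub_self]
        map_add' := fun a b => by rw [smul_add]; abel }
    have hφD : DFn U (fun v => φ v) :=
      DFn_asub (DFn_act (DFn_const t0) DFn_id) DFn_id
    have hB := (hAHM U φ hφD).1 ⊤ hful
    have hBinf : ((AddSubgroup.map φ (⊤ : AddSubgroup V) : AddSubgroup V) : Set V).Infinite := by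
      intro hfin
      have h0 : U.R ((AddSubgroup.map φ (⊤ : AddSubgroup V) : AddSubgroup V) : Set V) = 0 :=
        (hR.fin hB.1 ⟨0, AddSubgroup.zero_mem _⟩).2 hfin
      have h3 := hB.2.1
      rw [h0, zero_add] at h3
      have hkD : U.D ((⊤ ⊓ φ.ker : AddSubgroup V) : Set V) := by
        have h4 : U.D {w : V | φ w = 0} := D_eqf hφD (DFn_const _)
        have h5 : ((⊤ ⊓ φ.ker : AddSubgroup V) : Set V) = {w : V | φ w = 0} := by
          ext w
          simp [AddMonoidHom.mem_ker]
        rw [h5]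
        exact h4
      have h6 := hV.2 (⊤ ⊓ φ.ker) le_top hkD (le_of_eq h3)
      have h7 : v0 ∈ (⊤ ⊓ φ.ker : AddSubgroup V) := by rw [h6]; exact AddSubgroup.mem_top _
      have h8 : t0 • v0 - v0 = 0 := h7.2
      exact hv0 (sub_eq_zero.1 h8)
    have hBiv : Iv (⊤ : Subgroup G) (AddSubgroup.map φ (⊤ : AddSubgroup V)) := by
      rintro g - w ⟨a, -, rfl⟩
      refine ⟨g • a, AddSubgroup.mem_top _, ?_⟩
      change t0 • g • a - g • a = g • (t0 • a - a)
      rw [smul_sub, smul_smul, smul_smul, hcen t0 ht0 g]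
    have hBt : AddSubgroup.map φ (⊤ : AddSubgroup V) = ⊤ := by
      by_contra hne
      exact hBinf (hMn.2.2.2 _ le_top hB.1 hBiv hne)
    have hsi : s i ∈ C G s i.1 := by
      have h9 : s i ∈ AddSubgroup.map φ (⊤ : AddSubgroup V) := by
        rw [hBt]; exact AddSubgroup.mem_top _
      obtain ⟨a, -, ha⟩ := h9
      have h10 : a ∈ D := by rw [hDt]; exact AddSubgroup.mem_top _
      have h11 : t0 • a - a = s i := ha
      rw [← h11]
      exact h10 t0 ht0
    have hOe : {y : V | ∃ g : G, (∀ j, j < i → g • s j = s j) ∧ y = g • s i} = {s i} := by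
      ext y
      constructor
      · rintro ⟨g, hg, rfl⟩
        exact hsi g fun j hj => hg j hj
      · rintro rfl
        exact ⟨1, fun j _ => one_smul _ _, (one_smul _ _).symm⟩
    have h12 := hs i
    rw [hOe] at h12
    have h13 : U.R ({s i} : Set V) = 0 :=
      (hR.fin (D_singleton (s i)) (singleton_nonempty _)).2 (finite_singleton _)
    omega
  have ind : ∀ n : ℕ, n ≤ U.R (univ : Set V) + 1 → n ≤ U.R (C G s n : Set V) := by
    intro n
    induction n with
    | zero => intro _; exact Nat.zero_le _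
    | succ n ih =>
      intro hn
      have h1 := ih (by omega)
      have h2 := key ⟨n, by omega⟩
      have h3 : U.R (C G s n : Set V) + 1 ≤ U.R (C G s (n + 1) : Set V) := h2
      omega
  have h1 := ind (U.R (univ : Set V) + 1) le_rfl
  have h2 : U.R (C G s (U.R (univ : Set V) + 1) : Set V) ≤ U.R (univ : Set V) :=
    hR.mono (D_C s _) hful ⟨0, AddSubgroup.zero_mem _⟩ (subset_univ _)
  omega

end Pool.Agent.H51.KG.UNI
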